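import Pool.Agent.H10.GT.Inst
import Pool.Agent.H10.GT.C1
import Pool.Agent.H10.GT.C2
import Pool.Agent.H10.GT.C3
import Pool.Agent.H10.GT.C4
import Pool.Agent.H10.GT.C5

set_option autoImplicit false

/-!
# The F-conjecture for divisors with group-valued weights, for all `n`

Let `G` be a finite abelian group and `f` a real function on `G`, `f 0 = 0`. A mark `h` of
`M̄_{0,n}` and weights `w i ∈ G` of the other marks give the divisor
`D (f, w) = ∑ f (w (S)) • δ_S - ∑ f (w i) • ψ_i - f (w (all marks but h)) • ψ_h`, where the first
sum is over the boundary divisors `δ_S`, written with the set `S` which does not contain `h`, and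
`w (S)` is the sum of the weights of the marks in `S`. (If `f` is even, give `h` the weight which
makes the sum of all weights zero: the coefficient of `δ_S` is `f (w (S))` for all `S`, and the mark
`h` plays no special role.) The restriction of such a divisor to a stratum of the boundary is a
divisor of the same kind, for the same `f`. So it is F-nef for all `n`, `h`, `w` if and only if

`f a + f b + f c + f (a + b + c) ≤ f (a + b) + f (a + c) + f (b + c)` for all `a, b, c ∈ G`.

Theorem. Let `G` be a finite abelian group which is cyclic of order at most `47`, or of order at
most `14`, or of exponent two and order at most `64`. If `f` satisfies these inequalities, all the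
divisors `D (f, w)` on `M̄_{0,n}` are nef, for all `n`.

More generally this holds for all finite abelian groups in which no set of eight elements has no
relations: a nonempty proper subset with the sum zero, or an element which is the sum of two others.
For example it holds for the `S_n`-invariant divisors on `M̄_{0,n}` for which the coefficient of
`δ_S` is a periodic function of `|S|` with a period `m ≤ 47` which divides `n`, if `f` satisfies the
inequalities modulo `m`.

Proof. The degree of `D (f, w)` on a fixed curve is a function `F` of the weights.  The sum of the
inequalities over all `c ∈ G` shows that `f a + f b ≤ f (a + b)`.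

* If the sum of the weights of a set `P` of marks is zero, `h ∉ P`, then `F w` is at least the sum
  of the values of `F` for the weights which are replaced by `0` outside of `P`, and inside of `P`.
* If two weights are equal, or if one is the sum of two others, let `w i = ± v i` for these two or
  three weights, `∑ v i = 0`, and `v i = 0` for the others. Then `F w` is at least the average of
  `F (w + v)` and `F (w - v)`, as the second differences of `f` in the direction `a` are least
  at `a`.

So a curve and weights with the fewest nonzero weights for which the degree is negative have weights
without relations, at most seven of them are not zero, and the degree is the degree of the image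
of the curve in `M̄_{0,q}`, `q ≤ 8`, where the F-conjecture is true (Larsen for `q ≤ 7`, Fedorchuk
and Mellit for `q = 8`; it is proved in the files which are imported). That there are no eight
elements without relations in the cyclic groups of order at most `47` is checked by a search.
-/

namespace Pool.Agent.Results.MP_23e236_ag.GroupWeights

open Finset Pool.Agent.NH37.FC Pool.Agent.NH37.SL Pool.Agent.H10.GT

theorem noSet_47 {G : Type} [AddCommGroup G] [Finite G] [IsAddCyclic G] (h : Nat.card G ≤ 47) :
    NoSet G := by
  rcases Nat.lt_or_ge (Nat.card G) 15 with h1 | h1
  · exact noSet_small (by omega)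
  · apply noSet_cyclic
    obtain ⟨m, hm⟩ : ∃ m, m = Nat.card G := ⟨_, rfl⟩
    rw [← hm] at h h1 ⊢
    interval_cases m
    exacts [check15, check16, check17, check18, check19, check20, check21, check22, check23,
      check24, check25, check26, check27, check28, check29, check30, check31, check32, check33,
      check34, check35, check36, check37, check38, check39, check40, check41, check42, check43,
      check44, check45, check46, check47]

/-- **The F-conjecture for divisors with group-valued weights.**

Let `G` be a finite abelian group which is cyclic of order at most `47`, or has order at most `14`,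
or has exponent two and order at most `64`, or has no set of eight elements without relations. Let
`f` be a real function on `G` with `f 0 = 0`. The divisors `coef f h w` on `M̄_{0,n}` are F-nef for
all `n`, all marks `h` and all weights `w` if and only if `f` satisfies the inequalities `FIneq f`,
and then they are nef for all `n`, `h`, `w`: they have nonnegative degree on all curves in all
strata, where a curve may be any class with the numerical properties `IsCurve`. -/
theorem result {G : Type} [AddCommGroup G] [Finite G]
    (hG : (IsAddCyclic G ∧ Nat.card G ≤ 47) ∨ Nat.card G ≤ 14 ∨
      ((∀ g : G, g + g = 0) ∧ Nat.card G ≤ 64) ∨ NoSet G) {f : G → ℝ} (h0 : f 0 = 0) :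
    ((∀ (n : ℕ) (h : Fin n) (w : Fin n → G), FNef (coef f h w)) ↔ FIneq f) ∧
    (FIneq f → ∀ (n : ℕ) (h : Fin n) (w : Fin n → G), IsDivisor (coef f h w) ∧
      ∀ (r : ℕ) (B : Fin r → Finset (Fin n)), 4 ≤ r → IsPartition B →
        ∀ (m : Finset (Fin r) → ℝ) (ψ : Fin r → ℝ), IsCurve m ψ →
          0 ≤ degree (coef f h w) B m ψ) := by
  have hN : NoSet G := by
    rcases hG with ⟨h1, h2⟩ | h | ⟨h1, h2⟩ | h
    · exact noSet_47 h2
    · exact noSet_small h
    · exact noSet_two h1 h2
    · exact h
  refine ⟨⟨fun h a b c => ?_, fun hf n h w => coef_fnef hf h w⟩, fun hf n h w =>
    ⟨coef_isDivisor h0 h w, fun r B hr hB m ψ hC => main hN hf h0 h w hr hB hC⟩⟩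
  have h1 := h 4 3 ![a, b, c, 0] {0} {1} {2} {3} (by simp) (by simp) (by simp) (by simp)
    (by decide) (by decide) (by decide) (by decide) (by decide) (by decide) (by decide)
  unfold coef at h1
  rw [if_neg (by decide), if_neg (by decide), if_neg (by decide), if_pos (by decide),
    if_neg (by decide), if_neg (by decide), if_pos (by decide)] at h1
  have e1 : (({3} : Finset (Fin 4))ᶜ) = {0, 1, 2} := by decide
  have e2 : (({0} ∪ {3} : Finset (Fin 4))ᶜ) = {1, 2} := by decide
  have e3 : (({0} ∪ {1} : Finset (Fin 4))) = {0, 1} := by decide
  have e4 : (({0} ∪ {2} : Finset (Fin 4))) = {0, 2} := by decide
  rw [e1, e2, e3, e4] at h1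
  simp only [sum_singleton] at h1
  rw [sum_insert (by decide), sum_insert (by decide), sum_singleton, sum_insert (by decide),
    sum_singleton, sum_insert (by decide), sum_singleton] at h1
  simp only [Matrix.cons_val_zero, Matrix.cons_val_one, Matrix.cons_val] at h1
  rw [← add_assoc] at h1
  linarith

end Pool.Agent.Results.MP_23e236_ag.GroupWeights
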